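import Pool.Agent.helper34.MO.SpecD

/-! # Project MO, module SPL -/

set_option autoImplicit false

open Complex Finset

noncomputable section

namespace Pool.Agent.MO

theorem SPL_pt (x : ℝ) : (if 0 < x then x ^ 2 else 0) = (x * |x| + x ^ 2) / 2 := by
  by_cases h : 0 < x
  · rw [if_pos h, abs_of_pos h]
    ring
  · rw [if_neg h, abs_of_nonpos (not_lt.1 h)]
    ring

open Classical in
theorem SPL_herm {V : Type} [Fintype V] (G : SimpleGraph V) : (G.adjMatrix ℝ).IsHermitian := by
  rw [Matrix.IsHermitian, Matrix.conjTranspose_eq_transpose_of_trivial]; exact G.isSymm_adjMatrix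

open Classical in
theorem SPL_splus {V : Type} [Fintype V] (G : SimpleGraph V) :
    splus G = ∑ i, ((SPL_herm G).eigenvalues i * |(SPL_herm G).eigenvalues i| +
      (SPL_herm G).eigenvalues i ^ 2) / 2 := by
  unfold splus
  exact Finset.sum_congr rfl fun i _ => SPL_pt _

open Classical in
theorem SPL_ev {V : Type} [Fintype V] (G : SimpleGraph V) (τ : Tr)
    (s : V ≃ Fin (Fintype.card V)) (hc : τ.sz + 2 = Fintype.card V)
    (h : ∀ x y : V, (G.Adj x y → AG τ (s x) (s y) = 1) ∧ (¬ G.Adj x y → AG τ (s x) (s y) = 0)) :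
    evA (AG τ) (τ.sz + 2) = Multiset.map (SPL_herm G).eigenvalues Finset.univ.val := by
  have h1 : Matrix.of (fun i j : Fin (τ.sz + 2) => AG τ i.1 j.1) =
      Matrix.reindex (s.trans (finCongr hc.symm)) (s.trans (finCongr hc.symm)) (G.adjMatrix ℝ) := by
    ext i j
    rw [Matrix.reindex_apply, Matrix.submatrix_apply, Matrix.of_apply, SimpleGraph.adjMatrix_apply]
    set x := (s.trans (finCongr hc.symm)).symm i with hx
    set y := (s.trans (finCongr hc.symm)).symm j with hy
    have hi : (i : ℕ) = (s x : ℕ) := by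
      have : i = (s.trans (finCongr hc.symm)) x := by rw [hx, Equiv.apply_symm_apply]
      rw [this]
      rfl
    have hj : (j : ℕ) = (s y : ℕ) := by
      have : j = (s.trans (finCongr hc.symm)) y := by rw [hy, Equiv.apply_symm_apply]
      rw [this]
      rfl
    rw [hi, hj]
    by_cases ha : G.Adj x y
    · rw [if_pos ha, (h x y).1 ha]
    · rw [if_neg ha, (h x y).2 ha]
  unfold evA
  rw [h1, Matrix.charpoly_reindex, (SPL_herm G).roots_charpoly_eq_eigenvalues]
  rfl

theorem SPL (hEVK : EVK_stmt) (hTR2 : TR2_stmt) (hATS : ATS_stmt) : SPL_stmt := by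
  classical
  intro V _ G τ s hc h
  have hev := SPL_ev G τ s hc h
  have h2 := (hEVK (AG τ) (τ.sz + 2) (fun x y => (hATS.2 τ x y).1)).2.2.1
  rw [hTR2 τ, hev, Multiset.map_map] at h2
  have h3 : ∑ i, (SPL_herm G).eigenvalues i ^ 2 = 4 * (τ.sz : ℝ) + 2 := by
    rw [← h2]
    rfl
  have h4 : DD (evA (AG τ) (τ.sz + 2)) =
      ∑ i, (SPL_herm G).eigenvalues i * |(SPL_herm G).eigenvalues i| := by
    rw [hev]
    unfold DD
    rw [Multiset.map_map]
    rfl
  rw [SPL_splus, h4, ← h3, ← Finset.sum_div, Finset.sum_add_distrib]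

end Pool.Agent.MO
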